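import Pool.Agent.Helper80.HMO.Final

/-!
# `𝔄_p`-harmonic morphisms are open wherever they are not locally constant

No assumption on the polarity of points: for all `1 < p < ∞`, all `p`-admissible weights and all
operators in `𝔄_p`, a nonconstant morphism `f : Ω → ℝⁿ` on a domain `Ω ⊆ ℝⁿ`, `n ≥ 2`, is open at
`x₀` unless `f` is constant near `x₀` and the point `f x₀` is not polar; `f(D)` is open or a point
for every domain `D ⊆ Ω`; `f` is an open mapping if and only if it has the Rado property.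
-/

set_option autoImplicit false

namespace Pool.Agent.Results.MP_abd978_an.OpenWhereNotConstant

open Pool.Agent.Helper533.Polar.Stmt Pool.Agent.Helper80.HMStmt

theorem result : ∀ n : ℕ, 2 ≤ n → ∀ p : ℝ, 1 < p →
    ∀ (wstar w : Sp n → ℝ) (𝒜star 𝒜 : Sp n → Sp n → Sp n),
    InClass p wstar 𝒜star → InClass p w 𝒜 →
    ∀ Ω : Set (Sp n), IsOpen Ω → IsConnected Ω →
    ∀ f : Sp n → Sp n, IsMorphism p wstar w 𝒜star 𝒜 Ω f → (∃ x ∈ Ω, ∃ y ∈ Ω, f x ≠ f y) →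
      (∀ x₀ ∈ Ω, IsOpenAt Ω f x₀ ∨ (IsConstNear f x₀ ∧ ¬ IsPolarPt p w (f x₀))) ∧
      (∀ D ⊆ Ω, IsOpen D → IsConnected D → IsOpen (f '' D) ∨ ∃ y, f '' D = {y}) ∧
      (IsOpenMap' Ω f ↔ HasRado Ω f) := by
  intro n hn p hp wstar w 𝒜star 𝒜 hs ht Ω hΩ hΩc f hf hne
  obtain ⟨h1, h2, h3, h4⟩ := Pool.Agent.Helper80.HMO.main hn hp hs ht hΩ hΩc.isPreconnected hf
  refine ⟨fun x₀ hx₀ => ?_, fun D hDΩ hD hDc => ?_, h3⟩
  · rcases h1 x₀ hx₀ with h | h
    · exact Or.inl h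
    · refine Or.inr ⟨h, fun hpol => ?_⟩
      obtain ⟨x, hx, y, hy, hxy⟩ := hne
      have h5 := h4 x₀ hx₀ hpol h
      exact hxy ((h5 x hx).trans (h5 y hy).symm)
  · rcases h2 D hDΩ hD hDc.isPreconnected with h | h
    · exact Or.inl h
    · obtain ⟨x, hx⟩ := hDc.nonempty
      exact Or.inr ⟨f x, h.eq_singleton_of_mem ⟨x, hx, rfl⟩⟩

end Pool.Agent.Results.MP_abd978_an.OpenWhereNotConstant
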